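import Pool.Agent.Helper781.CycHouse.House
import Pool.Agent.Helper781.Fusion.Cyclotomic

/-!
Auxiliary facts on complex fusion categories: semisimplicity from the splitting of monomorphisms,
and the Frobenius-Perron dimension from a positive character of the fusion ring.
-/

set_option autoImplicit false

namespace Pool.Agent.W451.FusionAux

open Pool.Agent.Helper781.CycHouse Pool.Agent.Helper781.Fusion

section house

open Polynomial Finset

/-- A cyclotomic Perron-Frobenius eigenvalue of a matrix of natural numbers is the house of a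
cyclotomic integer. -/
lemma isHouse_of_pf {n : ℕ} (A : Matrix (Fin n) (Fin n) ℕ) (d : ℝ) (hA : IsPFEigenvalue A d)
    (hd : ∃ (N : ℕ) (ζ : ℂ), 0 < N ∧ IsPrimitiveRoot ζ N ∧
      (d : ℂ) ∈ IntermediateField.adjoin ℚ {ζ}) : IsHouse d := by
  obtain ⟨h1, h2⟩ := hA
  obtain ⟨N, ζ, hN, hζ, hmem⟩ := hd
  set P : ℤ[X] := (A.map (fun x : ℕ => (x : ℤ))).charpoly with hP
  have hmap : (A.map (fun x : ℕ => (x : ℂ))).charpoly = P.map (Int.castRingHom ℂ) := by
    rw [hP, ← Matrix.charpoly_map]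
    congr 1
  have hroot : ∀ z : ℂ, z ∈ spectrum ℂ (A.map (fun x : ℕ => (x : ℂ))) ↔ aeval z P = 0 := by
    intro z
    rw [Matrix.mem_spectrum_iff_isRoot_charpoly, hmap, IsRoot, eval_map, aeval_def]
    rfl
  have hd0 : aeval (d : ℂ) P = 0 := (hroot _).mp h1
  have hint : IsIntegral ℤ (d : ℂ) := ⟨P, Matrix.charpoly_monic _, hd0⟩
  obtain ⟨f, hf⟩ := int_of_field hN hζ d hint hmem
  have hnn : 0 ≤ d := (norm_nonneg _).trans (h2 _ h1)
  refine ⟨N, f, hN, ⟨ζ, hζ, ?_⟩, ?_⟩
  · rw [hf, Complex.norm_real, Real.norm_of_nonneg hnn]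
  · intro z hz
    apply h2
    rw [hroot]
    have h3 : aeval ζ (P.comp f) = 0 := by rw [aeval_comp, hf, hd0]
    have h4 := aeval_conj hN _ hζ hz h3
    rwa [aeval_comp] at h4

end house

open CategoryTheory CategoryTheory.Limits MonoidalCategory

universe v u

section semisimple

variable {C : Type u} [Category.{v} C] [Abelian C] [Linear ℂ C]

/-- A complete reducibility statement: if monomorphisms split and Hom spaces are finite
dimensional, every object is a finite direct sum of simple objects. -/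
lemma exists_simple_sum [∀ X Y : C, FiniteDimensional ℂ (X ⟶ Y)]
    (hsplit : ∀ (X Y : C) (f : Y ⟶ X), Mono f → ∃ g : X ⟶ Y, f ≫ g = 𝟙 Y) (X : C) :
    ∃ (m : ℕ) (T : Fin m → C) (ι : ∀ k, T k ⟶ X) (π : ∀ k, X ⟶ T k), (∀ k, Simple (T k)) ∧
      (∀ k, ι k ≫ π k = 𝟙 (T k)) ∧ (∀ k l, k ≠ l → ι k ≫ π l = 0) ∧
      ∑ k, π k ≫ ι k = 𝟙 X := by
  classical
  induction hn : Module.finrank ℂ (X ⟶ X) using Nat.strong_induction_on generalizing X with
  | _ n ih =>
  by_cases hz : IsZero X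
  · refine ⟨0, fun k => k.elim0, fun k => k.elim0, fun k => k.elim0, fun k => k.elim0,
      fun k => k.elim0, fun k => k.elim0, ?_⟩
    exact hz.eq_of_src _ _
  by_cases hs : Simple X
  · refine ⟨1, fun _ => X, fun _ => 𝟙 X, fun _ => 𝟙 X, fun _ => hs, fun _ => by simp,
      fun k l h => absurd (Subsingleton.elim k l) h, by simp⟩
  -- a proper nonzero subobject
  have : ∃ (Y : C) (f : Y ⟶ X), Mono f ∧ ¬ IsIso f ∧ f ≠ 0 := by
    by_contra hcon
    push Not at hcon
    apply hs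
    refine ⟨?_⟩
    intro Y f hf
    constructor
    · intro hi h0
      apply hz
      rw [IsZero.iff_id_eq_zero]
      have h1 : inv f ≫ f = 𝟙 X := IsIso.inv_hom_id f
      rw [← h1]
      conv_lhs => rw [show inv f ≫ f = inv f ≫ (0 : Y ⟶ X) from congrArg (fun t => inv f ≫ t) h0]
      exact comp_zero
    · intro h0
      by_contra hi
      exact h0 (hcon Y f hf hi)
  obtain ⟨Y, f, hf, hni, hne⟩ := this
  obtain ⟨g, hg⟩ := hsplit X Y f hf
  -- complement: image of the idempotent 1 - g f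
  let e : X ⟶ X := 𝟙 X - g ≫ f
  let Z : C := kernel g
  let j : Z ⟶ X := kernel.ι g
  have he : e ≫ g = 0 := by
    simp only [e, Preadditive.sub_comp, Category.id_comp, Category.assoc, hg, Category.comp_id,
      sub_self]
  let p : X ⟶ Z := kernel.lift g e he
  have hpj : p ≫ j = e := kernel.lift_ι g e he
  have hjg : j ≫ g = 0 := kernel.condition g
  have hjp : j ≫ p = 𝟙 Z := by
    rw [← cancel_mono j, Category.assoc, hpj]
    simp only [e, Preadditive.comp_sub, Category.comp_id, Category.id_comp, ← Category.assoc]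
    rw [hjg]; simp
  have hfp : f ≫ p = 0 := by
    rw [← cancel_mono j, Category.assoc, hpj]
    simp only [e, Preadditive.comp_sub, Category.comp_id, ← Category.assoc]
    rw [hg]; simp
  have hsum : g ≫ f + p ≫ j = 𝟙 X := by rw [hpj]; simp [e]
  -- dimension count
  have hYne : ¬ IsZero Y := fun h => hne (h.eq_of_src _ _)
  have hZne : ¬ IsZero Z := by
    intro h
    apply hni
    have : p ≫ j = 0 := by rw [h.eq_of_tgt p 0, zero_comp]
    rw [this, add_zero] at hsum
    exact ⟨g, hg, hsum⟩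
  let Φ : (Y ⟶ Y) × (Z ⟶ Z) →ₗ[ℂ] (X ⟶ X) :=
    { toFun := fun a => g ≫ a.1 ≫ f + p ≫ a.2 ≫ j
      map_add' := by intro a b; simp; abel
      map_smul' := by intro c a; simp }
  have hΦ : Function.Injective Φ := by
    rw [← LinearMap.ker_eq_bot, LinearMap.ker_eq_bot']
    rintro ⟨a, b⟩ hab
    have h1 : g ≫ a ≫ f + p ≫ b ≫ j = 0 := hab
    have h2 : f ≫ (g ≫ a ≫ f + p ≫ b ≫ j) ≫ g = a := by
      simp only [Preadditive.add_comp, Preadditive.comp_add, Category.assoc, hg, hjg, comp_zero,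
        add_zero, Category.comp_id]
      rw [← Category.assoc, hg, Category.id_comp]
    have h3 : j ≫ (g ≫ a ≫ f + p ≫ b ≫ j) ≫ p = b := by
      simp only [Preadditive.add_comp, Preadditive.comp_add, Category.assoc, hjp, hfp, comp_zero,
        zero_add, Category.comp_id]
      rw [← Category.assoc, hjp, Category.id_comp]
    rw [h1] at h2 h3
    simp only [zero_comp, comp_zero] at h2 h3
    rw [← h2, ← h3]; rfl
  have hle := LinearMap.finrank_le_finrank_of_injective hΦ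
  rw [Module.finrank_prod] at hle
  have hYpos : 0 < Module.finrank ℂ (Y ⟶ Y) := by
    rw [Module.finrank_pos_iff_exists_ne_zero]
    exact ⟨𝟙 Y, fun h => hYne ((IsZero.iff_id_eq_zero Y).mpr h)⟩
  have hZpos : 0 < Module.finrank ℂ (Z ⟶ Z) := by
    rw [Module.finrank_pos_iff_exists_ne_zero]
    exact ⟨𝟙 Z, fun h => hZne ((IsZero.iff_id_eq_zero Z).mpr h)⟩
  obtain ⟨m₁, T₁, ι₁, π₁, hT₁, hs₁, hd₁, hsum₁⟩ := ih _ (by omega) Y rfl
  obtain ⟨m₂, T₂, ι₂, π₂, hT₂, hs₂, hd₂, hsum₂⟩ := ih _ (by omega) Z rfl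
  -- glue
  let T : Fin m₁ ⊕ Fin m₂ → C := Sum.elim T₁ T₂
  let ι : ∀ k : Fin m₁ ⊕ Fin m₂, T k ⟶ X := fun k => match k with
    | Sum.inl k => ι₁ k ≫ f
    | Sum.inr k => ι₂ k ≫ j
  let π : ∀ k : Fin m₁ ⊕ Fin m₂, X ⟶ T k := fun k => match k with
    | Sum.inl k => g ≫ π₁ k
    | Sum.inr k => p ≫ π₂ k
  let σ : Fin (m₁ + m₂) ≃ Fin m₁ ⊕ Fin m₂ := finSumFinEquiv.symm
  have hself : ∀ k, ι k ≫ π k = 𝟙 (T k) := by
    rintro (k | k)
    · show (ι₁ k ≫ f) ≫ g ≫ π₁ k = 𝟙 (T₁ k)
      rw [Category.assoc, ← Category.assoc f, hg, Category.id_comp, hs₁]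
    · show (ι₂ k ≫ j) ≫ p ≫ π₂ k = 𝟙 (T₂ k)
      rw [Category.assoc, ← Category.assoc j, hjp, Category.id_comp, hs₂]
  have hdiff : ∀ k l, k ≠ l → ι k ≫ π l = 0 := by
    rintro (k | k) (l | l) hkl
    · show (ι₁ k ≫ f) ≫ g ≫ π₁ l = 0
      rw [Category.assoc, ← Category.assoc f, hg, Category.id_comp,
        hd₁ k l (fun h => hkl (by rw [h]))]
    · show (ι₁ k ≫ f) ≫ p ≫ π₂ l = 0
      rw [Category.assoc, ← Category.assoc f, hfp, zero_comp, comp_zero]
    · show (ι₂ k ≫ j) ≫ g ≫ π₁ l = 0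
      rw [Category.assoc, ← Category.assoc j, hjg, zero_comp, comp_zero]
    · show (ι₂ k ≫ j) ≫ p ≫ π₂ l = 0
      rw [Category.assoc, ← Category.assoc j, hjp, Category.id_comp,
        hd₂ k l (fun h => hkl (by rw [h]))]
  have htot : ∑ k, π k ≫ ι k = 𝟙 X := by
    rw [Fintype.sum_sum_type, ← hsum]
    congr 1
    · show ∑ k, (g ≫ π₁ k) ≫ (ι₁ k ≫ f) = g ≫ f
      have : ∀ k, (g ≫ π₁ k) ≫ (ι₁ k ≫ f) = g ≫ (π₁ k ≫ ι₁ k) ≫ f := by intro k; simp
      simp_rw [this]
      rw [← Preadditive.comp_sum, ← Preadditive.sum_comp, hsum₁, Category.id_comp]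
    · show ∑ k, (p ≫ π₂ k) ≫ (ι₂ k ≫ j) = p ≫ j
      have : ∀ k, (p ≫ π₂ k) ≫ (ι₂ k ≫ j) = p ≫ (π₂ k ≫ ι₂ k) ≫ j := by intro k; simp
      simp_rw [this]
      rw [← Preadditive.comp_sum, ← Preadditive.sum_comp, hsum₂, Category.id_comp]
  refine ⟨m₁ + m₂, fun k => T (σ k), fun k => ι (σ k), fun k => π (σ k), ?_, ?_, ?_, ?_⟩
  · intro k
    rcases h : σ k with k' | k'
    · show Simple (T (σ k)); rw [h]; exact hT₁ k'
    · show Simple (T (σ k)); rw [h]; exact hT₂ k'
  · intro k; exact hself _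
  · intro k l hkl; exact hdiff _ _ (fun h => hkl (σ.injective h))
  · rw [← htot]
    exact Equiv.sum_comp σ (fun k => π k ≫ ι k)

/-- Semisimplicity in the form of bicones. -/
lemma exists_bicone [∀ X Y : C, FiniteDimensional ℂ (X ⟶ Y)]
    (hsplit : ∀ (X Y : C) (f : Y ⟶ X), Mono f → ∃ g : X ⟶ Y, f ≫ g = 𝟙 Y) (X : C) :
    ∃ (n : ℕ) (S : Fin n → C) (b : Bicone S), (∀ i, Simple (S i)) ∧
      Nonempty b.IsBilimit ∧ Nonempty (X ≅ b.pt) := by
  classical
  obtain ⟨m, T, ι, π, hT, hs, hd, hsum⟩ := exists_simple_sum hsplit X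
  let b : Bicone T :=
    { pt := X
      π := π
      ι := ι
      ι_π := by
        intro j j'
        split_ifs with h
        · subst h; simpa using hs j
        · exact hd j j' h }
  refine ⟨m, T, b, hT, ⟨isBilimitOfTotal b hsum⟩, ⟨Iso.refl _⟩⟩

end semisimple

section

variable {C : Type u} [Category.{v} C] [Abelian C] [Linear ℂ C] [MonoidalCategory C]
  [MonoidalPreadditive C] [MonoidalLinear ℂ C] [RigidCategory C]

/-- The value on `X` of a positive character of the fusion ring is the Perron-Frobenius eigenvalue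
of the fusion matrix of `X`. -/
lemma isPF_of_char {n : ℕ} {S : Fin n → C} [∀ X Y : C, FiniteDimensional ℂ (X ⟶ Y)]
    (dec : ∀ Z, Dec S Z) (hS : IsSimpleList S) [Nonempty (Fin n)] (d : Fin n → ℝ)
    (hpos : ∀ i, 0 < d i)
    (hmul : ∀ i j, d i * d j = ∑ k, (Module.finrank ℂ (S k ⟶ S i ⊗ S j) : ℝ) * d k) (X : C) :
    IsPFEigenvalue (fusionMatrix S X) (∑ i, (Module.finrank ℂ (S i ⟶ X) : ℝ) * d i) := by
  classical
  set x : ℝ := ∑ i, (Module.finrank ℂ (S i ⟶ X) : ℝ) * d i with hx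
  have hexp : ∀ k j, (Module.finrank ℂ (S k ⟶ X ⊗ S j) : ℝ) =
      ∑ i, (Module.finrank ℂ (S i ⟶ X) : ℝ) * (Module.finrank ℂ (S k ⟶ S i ⊗ S j) : ℝ) := by
    intro k j
    exact_mod_cast finrank_expand hS (dec X) (tensorRight (S j)) (S k)
  have hleft : ((NM S X).transpose).mulVec d = x • d := by
    ext j
    simp only [Matrix.mulVec, dotProduct, Matrix.transpose_apply, Pi.smul_apply, smul_eq_mul, NM]
    simp_rw [hexp, Finset.sum_mul]
    rw [Finset.sum_comm, hx, Finset.sum_mul]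
    refine Finset.sum_congr rfl fun i _ => ?_
    rw [mul_assoc, hmul, Finset.mul_sum]
    exact Finset.sum_congr rfl fun k _ => by ring
  have hmap : (fusionMatrix S X).map (fun x : ℕ => (x : ℂ)) = (NM S X).map (fun x : ℝ => (x : ℂ)) := by
    ext k j
    simp [fusionMatrix, NM]
  have hspec : ∀ z : ℂ, z ∈ spectrum ℂ ((NM S X).map (fun x : ℝ => (x : ℂ))) ↔
      z ∈ spectrum ℂ (((NM S X).transpose).map (fun x : ℝ => (x : ℂ))) := by
    intro z
    rw [Matrix.mem_spectrum_iff_isRoot_charpoly, Matrix.mem_spectrum_iff_isRoot_charpoly,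
      Matrix.transpose_map, Matrix.charpoly_transpose]
  refine ⟨?_, ?_⟩
  · rw [hmap, hspec, ← Matrix.spectrum_toLin', ← Module.End.hasEigenvalue_iff_mem_spectrum]
    refine Module.End.hasEigenvalue_of_hasEigenvector (x := fun i => (d i : ℂ)) ⟨?_, ?_⟩
    · rw [Module.End.mem_eigenspace_iff, Matrix.toLin'_apply]
      ext i
      have h5 := congrFun hleft i
      simp only [Matrix.mulVec, dotProduct, Matrix.map_apply, Pi.smul_apply, smul_eq_mul] at h5 ⊢
      exact_mod_cast h5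
    · intro h6
      obtain ⟨i⟩ := ‹Nonempty (Fin n)›
      have h7 := congrFun h6 i
      simp only [Pi.zero_apply, Complex.ofReal_eq_zero] at h7
      exact (hpos i).ne' h7
  · intro z hz
    rw [hmap, hspec] at hz
    exact pf_bound (NM S X).transpose (fun i j => Nat.cast_nonneg _) d hpos x hleft z hz

end

end Pool.Agent.W451.FusionAux
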