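import Pool.Agent.W894.MB.Defs2

/-!
# A proper class of sets with normal ultrafilters contains a family
-/

set_option autoImplicit false

namespace Pool.Agent.W451.MCFam

open Set Pool.Agent.Helper669.Forcing Pool.Agent.H995R3.Boards Pool.Agent.W894.MB
open Cardinal Ordinal

universe u v w z

theorem Smaller.mono {S : Type v} {T : Type w} {K : Type u} [LinearOrder K] (f : S → T)
    (hf : Function.Injective f) (h : Smaller T K) : Smaller S K := by
  obtain ⟨a, e, he, ha⟩ := h
  exact ⟨a, e ∘ f, he.comp hf, fun t => ha (f t)⟩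

theorem smaller_of_not {S K : Type u} [LinearOrder K] [WellFoundedLT K]
    (h : ¬ ∃ g : K → S, Function.Injective g) : Smaller S K := by
  have h1 : #S < #K := by
    rw [← not_le]
    rintro ⟨g⟩
    exact h ⟨g, g.injective⟩
  have h2 : (#S).ord < Ordinal.type (α := K) (· < ·) :=
    lt_of_lt_of_le (Cardinal.ord_lt_ord.2 h1) (Cardinal.ord_le_type _)
  obtain ⟨a, ha⟩ := Ordinal.typein_surj (α := K) (· < ·) h2
  have h3 : #{y : K // y < a} = #S := by
    rw [← Ordinal.card_typein (r := ((· < ·) : K → K → Prop)) a, ha, Cardinal.card_ord]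
  obtain ⟨e⟩ := Cardinal.eq.1 h3
  exact ⟨a, fun s => (e.symm s).1, fun s t hst => e.symm.injective (Subtype.ext hst),
    fun s => (e.symm s).2⟩

theorem not_inj_set (h : G_COMPL.{u, u}) {K : Type u} [LinearOrder K] [WellFoundedLT K]
    (U : Ultrafilter K) (hU : NormalMeasure U) (X : Type u) (hX : Smaller (X ⊕ ℕ) K) :
    ¬ ∃ g : K → Set X, Function.Injective g := by
  classical
  rintro ⟨g, hg⟩
  let A : X → Set K := fun t => if {x | t ∈ g x} ∈ U then {x | t ∈ g x} else {x | t ∈ g x}ᶜ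
  have hA : ∀ t, A t ∈ U := by
    intro t
    by_cases ht : {x | t ∈ g x} ∈ U
    · simp only [A, if_pos ht]
      exact ht
    · simp only [A, if_neg ht]
      exact Ultrafilter.compl_mem_iff_notMem.2 ht
  have hI : (⋂ t, A t) ∈ U := h K U hU X hX A hA
  obtain ⟨x₀, hx₀⟩ := U.nonempty_of_mem hI
  obtain ⟨x₁, hx₁, hx₁'⟩ := U.nonempty_of_mem (Filter.inter_mem hI (hU.tail x₀))
  have heq : g x₀ = g x₁ := by
    ext t
    have h0 := Set.mem_iInter.1 hx₀ t
    have h1 := Set.mem_iInter.1 hx₁ t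
    by_cases ht : {x | t ∈ g x} ∈ U
    · simp only [A, if_pos ht] at h0 h1
      exact ⟨fun _ => h1, fun _ => h0⟩
    · simp only [A, if_neg ht] at h0 h1
      exact ⟨fun h' => absurd h' h0, fun h' => absurd h' h1⟩
  have h2 : x₀ < x₁ := hx₁'
  exact absurd (hg heq) h2.ne

theorem normal_map {K K' : Type u} [LinearOrder K] [LinearOrder K'] (e : K ≃o K')
    (U : Ultrafilter K) (hU : NormalMeasure U) : NormalMeasure (U.map e) := by
  refine ⟨fun a => ?_, fun g hg => ?_⟩
  · rw [Ultrafilter.mem_map]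
    have h1 : e ⁻¹' {x | a < x} = {y | e.symm a < y} := by
      ext y
      simp only [Set.mem_preimage, Set.mem_ofPred_eq]
      exact e.symm_apply_lt.symm
    rw [h1]
    exact hU.tail _
  · rw [Ultrafilter.mem_map] at hg
    have h2 : {y | e.symm (g (e y)) < y} ∈ U := by
      refine Filter.mem_of_superset hg ?_
      intro y hy
      simp only [Set.mem_preimage, Set.mem_ofPred_eq] at hy ⊢
      exact e.symm_apply_lt.2 hy
    obtain ⟨a, ha⟩ := hU.normal _ h2
    refine ⟨e a, ?_⟩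
    rw [Ultrafilter.mem_map]
    refine Filter.mem_of_superset ha ?_
    intro y hy
    simp only [Set.mem_preimage, Set.mem_ofPred_eq] at hy ⊢
    rw [← hy, e.apply_symm_apply]

/-- ordinals with a normal ultrafilter -/
def N (o : Ordinal.{u}) : Prop := ∃ U : Ultrafilter o.ToType, NormalMeasure U

/-- the sum of the smaller ones, and of `ℕ` -/
abbrev Sm (o : Ordinal.{u}) : Type (u + 1) :=
  (Σ j : {j : Ordinal.{u} // N j ∧ j < o}, j.1.ToType) ⊕ ℕ

/-- the index class -/
def Pr (o : Ordinal.{u}) : Prop := N o ∧ Smaller (Sm o) o.ToType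

/-- the relation of an ordinal given by an injection to `X` -/
def Rl {X : Type u} (j : Ordinal.{u}) (g : j.ToType → X) : Set (X × X) :=
  {p | ∃ a b : j.ToType, a ≤ b ∧ p = (g a, g b)}

theorem Rl_le {X : Type u} (j j' : Ordinal.{u}) (g : j.ToType → X) (g' : j'.ToType → X)
    (hg : Function.Injective g) (hg' : Function.Injective g') (h : Rl j g = Rl j' g') :
    j ≤ j' := by
  have h1 : ∀ a : j.ToType, ∃ a' : j'.ToType, g' a' = g a := by
    intro a
    have h2 : (g a, g a) ∈ Rl j' g' := by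
      rw [← h]
      exact ⟨a, a, le_rfl, rfl⟩
    obtain ⟨a', b', _, h3⟩ := h2
    exact ⟨a', (Prod.mk.inj h3).1.symm⟩
  choose f hf using h1
  have hfi : Function.Injective f := by
    intro a b hab
    apply hg
    rw [← hf a, ← hf b, hab]
  have hle : ∀ {a b : j.ToType}, f a ≤ f b ↔ a ≤ b := by
    intro a b
    constructor
    · intro hab
      have h2 : (g a, g b) ∈ Rl j g := by
        rw [h, ← hf a, ← hf b]
        exact ⟨f a, f b, hab, rfl⟩
      obtain ⟨a1, b1, h4, h3⟩ := h2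
      obtain ⟨h5, h6⟩ := Prod.mk.inj h3
      rw [hg h5, hg h6]
      exact h4
    · intro hab
      have h2 : (g a, g b) ∈ Rl j' g' := by
        rw [← h]
        exact ⟨a, b, hab, rfl⟩
      obtain ⟨a1, b1, h4, h3⟩ := h2
      obtain ⟨h5, h6⟩ := Prod.mk.inj h3
      rw [← hf a] at h5
      rw [← hf b] at h6
      rw [hg' h5, hg' h6]
      exact h4
  let F : j.ToType ↪o j'.ToType := ⟨⟨f, hfi⟩, hle⟩
  have h7 := F.ltEmbedding.ordinal_type_le
  rwa [Ordinal.type_toType, Ordinal.type_toType] at h7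

theorem emb_sum (o : Ordinal.{u}) (X : Type u) (hX : ℵ₀ ≤ #X)
    (h : ∀ j, N j → j < o → ∃ g : j.ToType → X, Function.Injective g) :
    ∃ f : Sm o → Set X, Function.Injective f := by
  classical
  choose g hg using h
  let f₁ : Sm o → (Set (X × X) × X) ⊕ ℕ := Sum.map
    (fun p => (Rl p.1.1 (g p.1.1 p.1.2.1 p.1.2.2), g p.1.1 p.1.2.1 p.1.2.2 p.2)) id
  have hf₁ : Function.Injective f₁ := by
    refine Function.Injective.sumMap ?_ Function.injective_id
    rintro ⟨⟨j, hj, hjo⟩, x⟩ ⟨⟨j', hj', hjo'⟩, x'⟩ hp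
    simp only at hp
    obtain ⟨h1, h2⟩ := Prod.mk.inj hp
    have h3 : j = j' := le_antisymm
      (Rl_le j j' _ _ (hg j hj hjo) (hg j' hj' hjo') h1)
      (Rl_le j' j _ _ (hg j' hj' hjo') (hg j hj hjo) h1.symm)
    subst h3
    have h4 : x = x' := hg j hj hjo h2
    subst h4
    rfl
  have h5 : #((Set (X × X) × X) ⊕ ℕ) ≤ #(Set X) := by
    have h6 : ℵ₀ ≤ (2 : Cardinal.{u}) ^ #X := hX.trans (Cardinal.cantor _).le
    rw [Cardinal.mk_sum, Cardinal.mk_prod, Cardinal.mk_set, Cardinal.mk_set, Cardinal.mk_prod,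
      Cardinal.lift_id, Cardinal.lift_id, Cardinal.lift_uzero, Cardinal.mul_eq_self hX,
      Cardinal.mk_nat, Cardinal.lift_aleph0]
    calc (2 : Cardinal.{u}) ^ #X * #X + ℵ₀
        ≤ 2 ^ #X * 2 ^ #X + 2 ^ #X := by
          gcongr
          exact (Cardinal.cantor _).le
      _ = 2 ^ #X := by rw [Cardinal.mul_eq_self h6, Cardinal.add_eq_self h6]
  obtain ⟨f₂⟩ := h5
  exact ⟨f₂ ∘ f₁, f₂.injective.comp hf₁⟩

theorem main (h : G_COMPL.{u, u}) : G_FAM.{u} := by
  classical
  intro hyp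
  let F : Fam.{u, u + 1} {o : Ordinal.{u} // Pr o} :=
    { K := fun i => i.1.ToType
      lin := fun i => inferInstance
      wf := fun i => inferInstance
      U := fun i => Classical.choose i.2.1
      nm := fun i => Classical.choose_spec i.2.1
      small := by
        intro i
        refine Smaller.mono (Sum.map (fun p => (⟨⟨p.1.1.1, p.1.1.2.1, p.1.2⟩, p.2⟩ :
          Σ j : {j : Ordinal.{u} // N j ∧ j < i.1}, j.1.ToType)) id) ?_ i.2.2
        refine Function.Injective.sumMap ?_ Function.injective_id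
        rintro ⟨⟨⟨j, hj⟩, hji⟩, x⟩ ⟨⟨⟨j', hj'⟩, hji'⟩, x'⟩ hp
        simp only [Sigma.mk.injEq, Subtype.mk.injEq] at hp
        obtain ⟨h1, h2⟩ := hp
        subst h1
        have h3 := eq_of_heq h2
        subst h3
        rfl }
  refine ⟨{o : Ordinal.{u} // Pr o}, inferInstance, inferInstance, F, fun T => ?_⟩
  let X : Type u := T ⊕ ULift.{u} ℕ
  have hX : ℵ₀ ≤ #X := by
    rw [Cardinal.mk_sum]
    simp only [Cardinal.mk_uLift, Cardinal.mk_nat, Cardinal.lift_aleph0]
    exact le_add_self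
  have hXN : ∃ f : X ⊕ ℕ → X, Function.Injective f := by
    have h1 : #(X ⊕ ℕ) ≤ #X := by
      rw [Cardinal.mk_sum, Cardinal.lift_uzero, Cardinal.mk_nat, Cardinal.lift_aleph0]
      exact (Cardinal.add_eq_left hX hX).le
    obtain ⟨f⟩ := h1
    exact ⟨f, f.injective⟩
  obtain ⟨fX, hfX⟩ := hXN
  have hne : {o : Ordinal.{u} | N o ∧ Smaller X o.ToType}.Nonempty := by
    obtain ⟨K, iK, wK, U, hU, hs⟩ := hyp X
    have h1 : Ordinal.type (α := K) (· < ·) =
        Ordinal.type (α := (Ordinal.type (α := K) (· < ·)).ToType) (· < ·) :=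
      (Ordinal.type_toType _).symm
    obtain ⟨r⟩ := Quotient.exact h1
    let e : K ≃o (Ordinal.type (α := K) (· < ·)).ToType := OrderIso.ofRelIsoLT r
    refine ⟨Ordinal.type (α := K) (· < ·), ⟨U.map e, normal_map e U hU⟩, ?_⟩
    obtain ⟨a, f, hf, ha⟩ := hs
    exact ⟨e a, e ∘ f, e.injective.comp hf, fun t => e.lt_iff_lt.2 (ha t)⟩
  obtain ⟨o, ⟨ho1, ho2⟩, hmin⟩ := WellFounded.has_min (wellFounded_lt (α := Ordinal.{u})) _ hne
  have hj : ∀ j, N j → j < o → ∃ g : j.ToType → X, Function.Injective g := by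
    intro j hjN hjo
    by_contra hc
    exact hmin j ⟨hjN, smaller_of_not hc⟩ hjo
  obtain ⟨f, hf⟩ := emb_sum o X hX hj
  have hsX : Smaller (Set X) o.ToType := by
    obtain ⟨U, hU⟩ := ho1
    exact smaller_of_not (not_inj_set h U hU X (Smaller.mono fX hfX ho2))
  have hPr : Pr o := ⟨ho1, Smaller.mono f hf hsX⟩
  exact ⟨⟨o, hPr⟩, Smaller.mono (Sum.inl : T → X) Sum.inl_injective ho2⟩

end Pool.Agent.W451.MCFam
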